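import Pool.Agent.H93.TN.TargetsA

/-!
MP_ee74d2_an, local smoothing: module FLT (flat decoupling in `L^q`).
-/

set_option autoImplicit false

namespace Pool.Agent.H81.TN

open MeasureTheory Set FourierTransform
open Pool.Agent.H93.TN Pool.Agent.H83.LS Pool.Agent.H93.AR Pool.Agent.H54.LS Pool.Agent.H14.LS
open Pool.Agent.H83.AR Pool.Agent.H84.BR Pool.Agent.H84.B2
open scoped ENNReal NNReal

theorem eta0_cd : ContDiff ℝ (⊤ : ℕ∞) eta0 := by
  unfold eta0
  exact Real.smoothTransition.contDiff.comp (contDiff_const.sub contDiff_id)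

theorem eta0_cont : Continuous eta0 := eta0_cd.continuous

theorem eta0_eq_one {s : ℝ} (h : s ≤ 1) : eta0 s = 1 := by
  unfold eta0
  exact Real.smoothTransition.one_of_one_le (by linarith)

theorem eta0_eq_zero {s : ℝ} (h : 2 ≤ s) : eta0 s = 0 := by
  unfold eta0
  exact Real.smoothTransition.zero_of_nonpos (by linarith)

theorem ch2_cd : ContDiff ℝ (⊤ : ℕ∞) ch2 := by
  unfold ch2
  exact (eta0_cd.comp (contDiff_id.div_const 4)).sub (eta0_cd.comp (contDiff_const.mul contDiff_id))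

theorem rc_ch2 : RC ch2 := by
  refine ⟨ch2_cd, fun s hs => ?_⟩
  constructor
  · by_contra h
    push Not at h
    apply hs
    unfold ch2
    rw [eta0_eq_one (by linarith), eta0_eq_one (by linarith), sub_self]
  · by_contra h
    push Not at h
    apply hs
    unfold ch2
    rw [eta0_eq_zero (by linarith), eta0_eq_zero (by linarith), sub_self]

theorem e_cont : Continuous e := by
  unfold e
  fun_prop

/-- joint measurability of the kernels -/
theorem meas_MK (n : ℕ) (Lam r : ℝ) :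
    Measurable fun q : Sp n × EE n => MK (sy n ch2 Lam r (q.1 : EE n)) q.2 := by
  have h : StronglyMeasurable (Function.uncurry fun (q : Sp n × EE n) (ξ : EE n) =>
      e (inner ℝ q.2 ξ) * sy n ch2 Lam r (q.1 : EE n) ξ) := by
    apply Measurable.stronglyMeasurable
    have h1 : Measurable fun p : (Sp n × EE n) × EE n => e (inner ℝ p.1.2 p.2) :=
      e_cont.measurable.comp (measurable_fst.snd.inner measurable_snd)
    have h2 : Measurable fun p : (Sp n × EE n) × EE n => ch2 (‖p.2‖ / Lam) :=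
      ch2_cd.continuous.measurable.comp (measurable_snd.norm.div_const Lam)
    have h3 : Measurable fun p : (Sp n × EE n) × EE n =>
        eta0 ((‖‖p.2‖⁻¹ • p.2 - (p.1.1 : EE n)‖ / r) ^ 2) := by
      refine eta0_cont.measurable.comp ?_
      refine Measurable.pow_const (Measurable.div_const (Measurable.norm ?_) r) 2
      refine Measurable.sub (measurable_snd.norm.inv.smul measurable_snd) ?_
      exact measurable_subtype_coe.comp (measurable_fst.comp measurable_fst)
    exact h1.mul (Complex.measurable_ofReal.comp (h2.mul h3))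
  exact (StronglyMeasurable.integral_prod_right (ν := volume) h).measurable

/-- the kernel of the operator -/
noncomputable def KK (n : ℕ) (Lam r : ℝ) (y : EE n) (p : Sp n × EE n) : ℂ :=
  MK (sy n ch2 Lam r (p.1 : EE n)) (y - p.2)

theorem meas_KK (n : ℕ) (Lam r : ℝ) : Measurable (Function.uncurry (KK n Lam r)) := by
  have h1 : Measurable fun p : EE n × (Sp n × EE n) => ((p.2.1, p.1 - p.2.2) : Sp n × EE n) :=
    (measurable_snd.fst).prodMk (measurable_fst.sub measurable_snd.snd)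
  have h2 : Measurable fun p : EE n × (Sp n × EE n) =>
      MK (sy n ch2 Lam r (((p.2.1, p.1 - p.2.2) : Sp n × EE n).1 : EE n))
        ((p.2.1, p.1 - p.2.2) : Sp n × EE n).2 := (meas_MK n Lam r).comp h1
  exact h2

theorem pf_flt (hINT : T_INT) (hFL2 : T_FL2) (hSEL : T_SEL) : T_FLT := by
  intro n q hn hq
  obtain ⟨CI, hI⟩ := hINT q hq
  obtain ⟨C2, h2⟩ := hFL2 n hn
  obtain ⟨CS, hCS, hS⟩ := hSEL n 0 ch2 hn rc_ch2
  have hq2 : 0 ≤ q - 2 := by linarith
  have hCS1 : 0 < CS + 1 := by linarith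
  refine ⟨CI * C2 * ((CS + 1) ^ (q - 2)).toNNReal, ?_⟩
  intro Lam r A B G hLam hr hr8 hB hG hGA
  by_cases hB0 : sg n B = 0
  · rw [Measure.restrict_eq_zero.2 hB0]
    simp only [integral_zero_measure, enorm_zero]
    rw [ENNReal.zero_rpow_of_pos (by linarith), lintegral_zero]
    exact zero_le
  have hBt : sg n B ≠ ∞ := measure_ne_top _ _
  set s : ℝ := (sg n B).toReal with hs
  have hs0 : 0 < s := ENNReal.toReal_pos hB0 hBt
  have hsB : ENNReal.ofReal s = sg n B := ENNReal.ofReal_toReal hBt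
  obtain ⟨K, hK⟩ : ∃ K, K = KK n Lam r := ⟨_, rfl⟩
  have hKe : ∀ y u z, K y (u, z) = MK (sy n ch2 Lam r (u : EE n)) (y - z) := by
    intro y u z
    rw [hK]
    rfl
  set μ : Measure (Sp n × EE n) := ((sg n).restrict B).prod volume with hμ
  have hKm : Measurable (Function.uncurry K) := by
    rw [hK]
    exact meas_KK n Lam r
  have hKy : ∀ y, Measurable (K y) := fun y => hKm.comp measurable_prodMk_left
  have hN1 : ∀ y, ∫⁻ x, ‖K y x‖ₑ ∂μ ≤ ENNReal.ofReal ((CS + 1) * s) := by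
    intro y
    rw [hμ, lintegral_prod _ (hKy y).enorm.aemeasurable]
    have h1 : ∀ u : Sp n, ∫⁻ z, ‖K y (u, z)‖ₑ ≤ ENNReal.ofReal (CS + 1) := by
      intro u
      have hu : ‖(u : EE n)‖ = 1 := by simp
      obtain ⟨-, -, h3, -, -⟩ := hS Lam r (u : EE n) hLam hr hr8 hu
      simp only [pow_zero, ENNReal.ofReal_one, mul_one] at h3
      have h4 : ∫⁻ z, ‖MK (sy n ch2 Lam r (u : EE n)) (y - z)‖ₑ =
          ∫⁻ z, ‖MK (sy n ch2 Lam r (u : EE n)) z‖ₑ :=
        lintegral_sub_left_eq_self (fun z => ‖MK (sy n ch2 Lam r (u : EE n)) z‖ₑ) y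
      simp only [hKe]
      rw [h4]
      exact h3.trans (ENNReal.ofReal_le_ofReal (by linarith))
    refine (lintegral_mono h1).trans ?_
    rw [lintegral_const, Measure.restrict_apply MeasurableSet.univ, univ_inter, ← hsB,
      ← ENNReal.ofReal_mul hCS1.le]
  have hKi : ∀ y, Integrable (K y) μ := by
    intro y
    refine ⟨(hKy y).aestronglyMeasurable, ?_⟩
    exact (hN1 y).trans_lt ENNReal.ofReal_lt_top
  -- Fubini
  have hfub : ∀ H : Sp n × EE n → ℂ, Measurable H → (∃ D : ℝ, ∀ x, ‖H x‖ ≤ D) → ∀ y,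
      ∫ x, K y x * H x ∂μ =
        ∫ u in B, Qb n Lam r (u : EE n) (fun z => H (u, z)) y ∂(sg n) := by
    rintro H hH ⟨D, hD⟩ y
    have h1 : Integrable (fun x => K y x * H x) μ :=
      (hKi y).mul_bdd hH.aestronglyMeasurable (Filter.Eventually.of_forall hD)
    rw [hμ, integral_prod _ (by rw [← hμ]; exact h1)]
    refine integral_congr_ae (Filter.Eventually.of_forall fun u => ?_)
    show ∫ z, K y (u, z) * H (u, z) = Qb n Lam r (u : EE n) (fun z => H (u, z)) y
    simp only [hKe]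
    rfl
  have hlint : ∀ (f : Sp n × EE n → ℝ≥0∞), Measurable f →
      ∫⁻ x, f x ∂μ = ∫⁻ u in B, ∫⁻ z, f (u, z) ∂volume ∂(sg n) := by
    intro f hf
    rw [hμ, lintegral_prod _ hf.aemeasurable]
  have hr0 : 0 ≤ r ^ (n - 1) := pow_nonneg hr.le _
  have hsf : SFinite μ := by
    rw [hμ]
    exact Measure.prod.instSFinite
  have key := hI (Sp n × EE n) (EE n) μ volume K ((C2 : ℝ) * r ^ (n - 1)) ((CS + 1) * s) A
    (Function.uncurry G) (mul_pos hCS1 hs0) (mul_nonneg C2.coe_nonneg hr0) hKm hN1 (by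
      rintro H hH ⟨D, hD⟩ -
      have h1 := h2 Lam r D B (fun u z => H (u, z)) hLam hr hr8 hB hH (fun u z => hD _)
      rw [hlint _ (hH.enorm.pow_const 2), ENNReal.ofReal_mul C2.coe_nonneg, ENNReal.ofReal_coe_nnreal]
      refine le_trans (le_of_eq ?_) h1
      refine lintegral_congr fun y => ?_
      rw [hfub H hH ⟨D, hD⟩ y]) hG (fun x => hGA x.1 x.2)
  rw [hlint _ (hG.enorm.pow_const q)] at key
  have e1 : ∫⁻ y, ‖∫ x, K y x * Function.uncurry G x ∂μ‖ₑ ^ q =
      ∫⁻ x, ‖∫ u in B, Qb n Lam r (u : EE n) (G u) x ∂(sg n)‖ₑ ^ q := by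
    refine lintegral_congr fun y => ?_
    rw [hfub _ hG ⟨A, fun x => hGA x.1 x.2⟩ y]
    rfl
  rw [e1] at key
  refine key.trans (le_of_eq ?_)
  have e2 : ENNReal.ofReal ((C2 : ℝ) * r ^ (n - 1) * ((CS + 1) * s) ^ (q - 2)) =
      (C2 : ℝ≥0∞) * ENNReal.ofReal (r ^ (n - 1)) *
        (ENNReal.ofReal ((CS + 1) ^ (q - 2)) * (sg n B) ^ (q - 2)) := by
    rw [Real.mul_rpow hCS1.le hs0.le, ENNReal.ofReal_mul (mul_nonneg C2.coe_nonneg hr0),
      ENNReal.ofReal_mul C2.coe_nonneg, ENNReal.ofReal_coe_nnreal,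
      ENNReal.ofReal_mul (Real.rpow_nonneg hCS1.le _),
      ← ENNReal.ofReal_rpow_of_nonneg hs0.le hq2, hsB]
  rw [e2, ENNReal.coe_mul, ENNReal.coe_mul]
  show _ = (CI : ℝ≥0∞) * (C2 : ℝ≥0∞) * ENNReal.ofReal ((CS + 1) ^ (q - 2)) *
    ENNReal.ofReal (r ^ (n - 1)) * (sg n B) ^ (q - 2) * _
  simp only [Function.uncurry]
  ring

end Pool.Agent.H81.TN
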